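import Mathlib

set_option autoImplicit false

open Finset

namespace Pool.Agent.Results.MP_e25d14_pr.SurpriseBound

/-- A finite reversible Markov chain `P` with stationary distribution `π`. -/
structure RevChain (S : Type) [Fintype S] where
  P : S → S → ℝ
  π : S → ℝ
  P_nonneg : ∀ x y, 0 ≤ P x y
  P_sum : ∀ x, ∑ y, P x y = 1
  π_nonneg : ∀ x, 0 ≤ π x
  π_sum : ∑ x, π x = 1
  rev : ∀ x y, π x * P x y = π y * P y x

/-- `P_x(τ(y) = t)`: the sum, over all paths of length `t` from `x` to `y` that avoid `y` before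
time `t`, of the products of the transition probabilities. -/
def hitProb {S : Type} [Fintype S] [DecidableEq S] (P : S → S → ℝ) (x y : S) (t : ℕ) : ℝ :=
  ∑ ω : Fin (t + 1) → S,
    if ω 0 = x ∧ ω (Fin.last t) = y ∧ ∀ i : Fin t, ω i.castSucc ≠ y then
      ∏ i : Fin t, P (ω i.castSucc) (ω i.succ) else 0

section recursion
variable {S : Type} [Fintype S] [DecidableEq S] (P : S → S → ℝ)

theorem hitProb_zero (x y : S) : hitProb P x y 0 = if x = y then 1 else 0 := by
  unfold hitProb
  rw [← (Equiv.funUnique (Fin 1) S).symm.sum_comp]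
  simp only [Equiv.funUnique_symm_apply, uniqueElim_const, IsEmpty.forall_iff, and_true,
    Finset.univ_eq_empty, Finset.prod_empty]
  by_cases h : x = y
  · subst h
    rw [if_pos rfl]
    simp
  · rw [if_neg h]
    apply Finset.sum_eq_zero
    intro a _
    rw [if_neg]
    rintro ⟨h1, h2⟩
    exact h (h1.symm.trans h2)

theorem hitProb_succ (x y : S) (t : ℕ) :
    hitProb P x y (t + 1) = if x = y then 0 else ∑ z, P x z * hitProb P z y t := by
  have key : hitProb P x y (t + 1) = ∑ ω : Fin (t + 1) → S,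
      if x ≠ y ∧ ω (Fin.last t) = y ∧ ∀ i : Fin t, ω i.castSucc ≠ y then
        P x (ω 0) * ∏ i : Fin t, P (ω i.castSucc) (ω i.succ) else 0 := by
    unfold hitProb
    rw [← (Fin.consEquiv (fun _ : Fin (t + 2) => S)).sum_comp, Fintype.sum_prod_type]
    rw [Finset.sum_eq_single x]
    · refine Finset.sum_congr rfl fun ω _ => ?_
      have e1 : ((Fin.consEquiv (fun _ : Fin (t + 2) => S)) (x, ω)) 0 = x := rfl
      have e2 : ((Fin.consEquiv (fun _ : Fin (t + 2) => S)) (x, ω)) (Fin.last (t + 1)) =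
          ω (Fin.last t) := rfl
      have e3 : (∀ i : Fin (t + 1),
          ((Fin.consEquiv (fun _ : Fin (t + 2) => S)) (x, ω)) i.castSucc ≠ y) ↔
          x ≠ y ∧ ∀ i : Fin t, ω i.castSucc ≠ y := by
        rw [Fin.forall_fin_succ]
        rfl
      have e4 : ∏ i : Fin (t + 1), P (((Fin.consEquiv (fun _ : Fin (t + 2) => S)) (x, ω)) i.castSucc)
          (((Fin.consEquiv (fun _ : Fin (t + 2) => S)) (x, ω)) i.succ) =
          P x (ω 0) * ∏ i : Fin t, P (ω i.castSucc) (ω i.succ) := by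
        rw [Fin.prod_univ_succ]
        rfl
      refine ite_congr (propext ?_) (fun _ => e4) (fun _ => rfl)
      rw [e1, e2]
      tauto
    · intro a _ ha
      apply Finset.sum_eq_zero
      intro ω _
      rw [if_neg]
      rintro ⟨h1, -⟩
      exact ha h1
    · intro h; exact absurd (Finset.mem_univ x) h
  rw [key]
  by_cases h : x = y
  · rw [if_pos h]
    apply Finset.sum_eq_zero
    intro ω _
    rw [if_neg]
    rintro ⟨h1, -⟩
    exact h1 h
  · rw [if_neg h]
    unfold hitProb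
    simp only [Finset.mul_sum]
    rw [Finset.sum_comm]
    refine Finset.sum_congr rfl fun ω _ => ?_
    rw [Finset.sum_eq_single (ω 0)]
    · simp only [h, ne_eq, not_false_eq_true, true_and, mul_ite, mul_zero]
    · intro z _ hz
      rw [if_neg, mul_zero]
      rintro ⟨h1, -⟩
      exact hz h1.symm
    · intro h; exact absurd (Finset.mem_univ _) h

end recursion

section twopoint

theorem even_mono (m : ℕ) {A B B₀ : ℝ} (hB : |B| ≤ B₀) (hA : B₀ ≤ A) :
    (A + B) ^ m + (A - B) ^ m ≤ (A + B₀) ^ m + (A - B₀) ^ m := by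
  have hB0 : 0 ≤ B₀ := (abs_nonneg B).trans hB
  rcases hB0.eq_or_lt with h | h
  · have : B = 0 := by
      rw [← h] at hB
      exact abs_eq_zero.1 (le_antisymm hB (abs_nonneg B))
    rw [this, ← h]
  · obtain ⟨h1, h2⟩ := abs_le.1 hB
    set l : ℝ := (B₀ + B) / (2 * B₀) with hl
    have hl0 : 0 ≤ l := by rw [hl]; apply div_nonneg <;> linarith
    have hl1 : 0 ≤ 1 - l := by
      rw [hl, sub_nonneg, div_le_one (by linarith)]; linarith
    have hc := convexOn_pow (𝕜 := ℝ) m
    have e1 : A + B = l * (A + B₀) + (1 - l) * (A - B₀) := by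
      rw [hl]; field_simp; ring
    have e2 : A - B = (1 - l) * (A + B₀) + l * (A - B₀) := by
      rw [hl]; field_simp; ring
    have p1 : (0 : ℝ) ≤ A + B₀ := by linarith
    have p2 : (0 : ℝ) ≤ A - B₀ := by linarith
    have i1 := hc.2 (Set.mem_Ici.2 p1) (Set.mem_Ici.2 p2) hl0 hl1 (by ring)
    have i2 := hc.2 (Set.mem_Ici.2 p1) (Set.mem_Ici.2 p2) hl1 hl0 (by ring)
    simp only [smul_eq_mul] at i1 i2
    rw [e1, e2]
    linarith

theorem choose_le (m k : ℕ) : (2 * m).choose (2 * k) ≤ m.choose k * (2 * m - 1) ^ k := by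
  induction k with
  | zero => simp
  | succ k ih =>
    by_cases hk : m ≤ k
    · rw [Nat.choose_eq_zero_of_lt (by omega)]
      exact Nat.zero_le _
    push Not at hk
    have e1 : (2 * m).choose (2 * k + 2) * (2 * k + 2) =
        (2 * m).choose (2 * k + 1) * (2 * m - (2 * k + 1)) := Nat.choose_succ_right_eq _ _
    have e2 : (2 * m).choose (2 * k + 1) * (2 * k + 1) =
        (2 * m).choose (2 * k) * (2 * m - 2 * k) := Nat.choose_succ_right_eq _ _
    have e3 : m.choose (k + 1) * (k + 1) = m.choose k * (m - k) := Nat.choose_succ_right_eq _ _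
    have h1 : 2 * m - (2 * k + 1) ≤ (2 * k + 1) * (2 * m - 1) := by
      calc 2 * m - (2 * k + 1) ≤ 2 * m - 1 := by omega
        _ ≤ (2 * k + 1) * (2 * m - 1) := Nat.le_mul_of_pos_left _ (by omega)
    have h2 : 2 * m - 2 * k = 2 * (m - k) := by omega
    have hpos : 0 < (2 * k + 2) * (2 * k + 1) := by positivity
    have : (2 * m).choose (2 * (k + 1)) * ((2 * k + 2) * (2 * k + 1)) ≤
        m.choose (k + 1) * (2 * m - 1) ^ (k + 1) * ((2 * k + 2) * (2 * k + 1)) := by
      calc (2 * m).choose (2 * (k + 1)) * ((2 * k + 2) * (2 * k + 1))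
          = ((2 * m).choose (2 * k + 2) * (2 * k + 2)) * (2 * k + 1) := by ring_nf
        _ = ((2 * m).choose (2 * k + 1) * (2 * k + 1)) * (2 * m - (2 * k + 1)) := by
            rw [e1]; ring
        _ = (2 * m).choose (2 * k) * ((2 * (m - k)) * (2 * m - (2 * k + 1))) := by
            rw [e2, h2]; ring
        _ ≤ (m.choose k * (2 * m - 1) ^ k) * ((2 * (m - k)) * (2 * m - (2 * k + 1))) :=
            Nat.mul_le_mul_right _ ih
        _ = (m.choose k * (m - k)) * ((2 * m - 1) ^ k * 2 * (2 * m - (2 * k + 1))) := by ring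
        _ = (m.choose (k + 1) * (k + 1)) * ((2 * m - 1) ^ k * 2 * (2 * m - (2 * k + 1))) := by
            rw [e3]
        _ ≤ (m.choose (k + 1) * (k + 1)) *
              ((2 * m - 1) ^ k * 2 * ((2 * k + 1) * (2 * m - 1))) :=
            Nat.mul_le_mul_left _ (Nat.mul_le_mul_left _ h1)
        _ = m.choose (k + 1) * (2 * m - 1) ^ (k + 1) * ((2 * k + 2) * (2 * k + 1)) := by ring
    exact Nat.le_of_mul_le_mul_right this hpos

theorem bonami (m : ℕ) (hm : 1 ≤ m) (a b : ℝ) :
    (a + b) ^ (2 * m) + (a - b) ^ (2 * m) ≤ 2 * (a ^ 2 + (2 * m - 1) * b ^ 2) ^ m := by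
  have e1 : (a + b) ^ (2 * m) + (a - b) ^ (2 * m) =
      ∑ j ∈ range (2 * m + 1), ((2 * m).choose j : ℝ) * a ^ (2 * m - j) * (b ^ j + (-b) ^ j) := by
    rw [add_comm a b, add_pow, sub_eq_add_neg a b, add_comm a (-b), add_pow,
      ← Finset.sum_add_distrib]
    refine Finset.sum_congr rfl fun j _ => ?_
    ring
  have e2 : ∑ j ∈ range (2 * m + 1), ((2 * m).choose j : ℝ) * a ^ (2 * m - j) * (b ^ j + (-b) ^ j)
      = ∑ k ∈ range (m + 1), ((2 * m).choose (2 * k) : ℝ) * a ^ (2 * m - 2 * k) *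
        (b ^ (2 * k) + (-b) ^ (2 * k)) := by
    symm
    rw [← Finset.sum_image (f := fun j => ((2 * m).choose j : ℝ) * a ^ (2 * m - j) *
      (b ^ j + (-b) ^ j)) (s := range (m + 1)) (g := fun k => 2 * k)]
    · apply Finset.sum_subset
      · intro j hj
        simp only [Finset.mem_image, Finset.mem_range] at hj ⊢
        obtain ⟨k, hk, rfl⟩ := hj
        omega
      · intro j hj hj2
        have hodd : Odd j := by
          rw [← Nat.not_even_iff_odd]
          rintro ⟨k, hk⟩
          apply hj2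
          simp only [Finset.mem_image, Finset.mem_range] at hj ⊢
          exact ⟨k, by omega, by omega⟩
        rw [hodd.neg_pow]
        ring
    · intro x _ y _ h
      simp only at h
      omega
  rw [e1, e2]
  have e3 : 2 * (a ^ 2 + (2 * m - 1) * b ^ 2) ^ m = ∑ k ∈ range (m + 1),
      2 * (((2 * (m : ℝ) - 1) * b ^ 2) ^ k * (a ^ 2) ^ (m - k) * (m.choose k : ℝ)) := by
    rw [add_comm (a ^ 2), add_pow, Finset.mul_sum]
  rw [e3]
  apply Finset.sum_le_sum
  intro k hk
  rw [Finset.mem_range] at hk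
  have h1 : ((2 * m).choose (2 * k) : ℝ) ≤ (m.choose k : ℝ) * (2 * m - 1) ^ k := by
    have := choose_le m k
    have h2 : (((2 * m - 1 : ℕ) : ℝ)) = 2 * m - 1 := by
      rw [Nat.cast_sub (by omega)]; push_cast; ring
    rw [← h2]
    exact_mod_cast this
  have h3 : (-b) ^ (2 * k) = b ^ (2 * k) := by rw [Even.neg_pow ⟨k, by ring⟩]
  have h4 : a ^ (2 * m - 2 * k) = (a ^ 2) ^ (m - k) := by
    rw [← pow_mul]; congr 1; omega
  have h5 : b ^ (2 * k) = (b ^ 2) ^ k := pow_mul b 2 k
  rw [h3, h4, h5, mul_pow]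
  have h6 : 0 ≤ (a ^ 2) ^ (m - k) * (b ^ 2) ^ k := by positivity
  nlinarith [mul_le_mul_of_nonneg_right h1 h6]

theorem two_point (m : ℕ) (hm : 1 ≤ m) (u v z : ℂ) (hz : (2 * m - 1) * ‖z‖ ^ 2 ≤ 1) :
    ‖u + z * v‖ ^ (2 * m) + ‖u - z * v‖ ^ (2 * m) ≤
      ‖u + v‖ ^ (2 * m) + ‖u - v‖ ^ (2 * m) := by
  have expand : ∀ w : ℂ, ‖u + w‖ ^ (2 * m) + ‖u - w‖ ^ (2 * m) =
      ((‖u‖ ^ 2 + ‖w‖ ^ 2) + 2 * (u * (starRingEnd ℂ) w).re) ^ m +
      ((‖u‖ ^ 2 + ‖w‖ ^ 2) - 2 * (u * (starRingEnd ℂ) w).re) ^ m := by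
    intro w
    rw [pow_mul, pow_mul]
    congr 2
    · rw [← Complex.normSq_eq_norm_sq, ← Complex.normSq_eq_norm_sq, ← Complex.normSq_eq_norm_sq,
        Complex.normSq_add]
    · rw [← Complex.normSq_eq_norm_sq, ← Complex.normSq_eq_norm_sq, ← Complex.normSq_eq_norm_sq,
        Complex.normSq_sub]
  have hre : ∀ w : ℂ, |2 * (u * (starRingEnd ℂ) w).re| ≤ 2 * (‖u‖ * ‖w‖) := by
    intro w
    rw [abs_mul, abs_two]
    have := Complex.abs_re_le_norm (u * (starRingEnd ℂ) w)
    rw [norm_mul, RCLike.norm_conj] at this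
    linarith
  rw [expand (z * v), expand v]
  have s1 := even_mono m (hre (z * v)) (A := ‖u‖ ^ 2 + ‖z * v‖ ^ 2)
    (by nlinarith [sq_nonneg (‖u‖ - ‖z * v‖)])
  have s2 : (‖u‖ ^ 2 + ‖z * v‖ ^ 2 + 2 * (‖u‖ * ‖z * v‖)) ^ m +
      (‖u‖ ^ 2 + ‖z * v‖ ^ 2 - 2 * (‖u‖ * ‖z * v‖)) ^ m =
      (‖u‖ + ‖z * v‖) ^ (2 * m) + (‖u‖ - ‖z * v‖) ^ (2 * m) := by
    rw [pow_mul, pow_mul]
    congr 2 <;> ring
  have s3 := bonami m hm ‖u‖ ‖z * v‖
  have s4 : (‖u‖ ^ 2 + (2 * m - 1) * ‖z * v‖ ^ 2) ^ m ≤ (‖u‖ ^ 2 + ‖v‖ ^ 2) ^ m := by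
    have hm' : (1 : ℝ) ≤ m := by exact_mod_cast hm
    apply pow_le_pow_left₀
    · have : (0 : ℝ) ≤ 2 * m - 1 := by linarith
      positivity
    · rw [norm_mul, mul_pow]
      nlinarith [sq_nonneg ‖v‖, mul_le_mul_of_nonneg_right hz (sq_nonneg ‖v‖)]
  have s5 := even_mono m (A := ‖u‖ ^ 2 + ‖v‖ ^ 2) (B := 0)
    (B₀ := |2 * (u * (starRingEnd ℂ) v).re|) (by simp) (by
      refine (hre v).trans ?_
      nlinarith [sq_nonneg (‖u‖ - ‖v‖)])
  have s6 : (‖u‖ ^ 2 + ‖v‖ ^ 2 + |2 * (u * (starRingEnd ℂ) v).re|) ^ m +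
      (‖u‖ ^ 2 + ‖v‖ ^ 2 - |2 * (u * (starRingEnd ℂ) v).re|) ^ m =
      (‖u‖ ^ 2 + ‖v‖ ^ 2 + 2 * (u * (starRingEnd ℂ) v).re) ^ m +
      (‖u‖ ^ 2 + ‖v‖ ^ 2 - 2 * (u * (starRingEnd ℂ) v).re) ^ m := by
    rcases abs_choice (2 * (u * (starRingEnd ℂ) v).re) with h | h <;> rw [h]
    rw [add_comm, sub_neg_eq_add, ← sub_eq_add_neg]
  simp only [add_zero, sub_zero] at s5
  linarith

end twopoint

section contraction
variable {S : Type} [Fintype S] [DecidableEq S] (c : RevChain S)

/-- `(P + z (1 - P)) f` -/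
noncomputable def op (z : ℂ) (f : S → ℂ) (x : S) : ℂ :=
  ∑ w, (c.P x w : ℂ) * f w + z * (f x - ∑ w, (c.P x w : ℂ) * f w)

theorem op_contract (hlazy : ∀ x, 1 / 2 ≤ c.P x x) (m : ℕ) (hm : 1 ≤ m) (z : ℂ)
    (hz : (2 * m - 1) * ‖z‖ ^ 2 ≤ 1) (f : S → ℂ) :
    ∑ x, c.π x * ‖op c z f x‖ ^ (2 * m) ≤ ∑ x, c.π x * ‖f x‖ ^ (2 * m) := by
  -- the non-lazy kernel
  set K : S → S → ℝ := fun x w => 2 * c.P x w - (if x = w then 1 else 0) with hK
  have K0 : ∀ x w, 0 ≤ K x w := by
    intro x w
    simp only [hK]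
    split_ifs with h
    · subst h; linarith [hlazy x]
    · linarith [c.P_nonneg x w]
  have K1 : ∀ x, ∑ w, K x w = 1 := by
    intro x
    simp only [hK, Finset.sum_sub_distrib, ← Finset.mul_sum, c.P_sum]
    simp
    norm_num
  have Krev : ∀ x w, c.π x * K x w = c.π w * K w x := by
    intro x w
    simp only [hK]
    by_cases h : x = w
    · subst h; rfl
    · rw [if_neg h, if_neg (Ne.symm h)]
      have := c.rev x w
      linarith
  have hop : ∀ x, op c z f x = ∑ w, (K x w : ℂ) * ((f x + f w) / 2 + z * ((f x - f w) / 2)) := by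
    intro x
    have h1 : ∑ w, (K x w : ℂ) = 1 := by exact_mod_cast K1 x
    have h2 : ∑ w, (K x w : ℂ) * f w = 2 * ∑ w, (c.P x w : ℂ) * f w - f x := by
      have hKc : ∀ w, (K x w : ℂ) = 2 * (c.P x w : ℂ) - if x = w then 1 else 0 := by
        intro w
        simp only [hK]
        split_ifs <;> push_cast <;> rfl
      simp only [hKc, sub_mul, Finset.sum_sub_distrib, ite_mul, one_mul, zero_mul,
        Finset.sum_ite_eq, Finset.mem_univ, if_true, Finset.mul_sum, mul_assoc]
    have h3 : ∑ w, (K x w : ℂ) * ((f x + f w) / 2 + z * ((f x - f w) / 2)) =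
        (∑ w, (K x w : ℂ)) * ((1 + z) / 2 * f x) + (1 - z) / 2 * ∑ w, (K x w : ℂ) * f w := by
      rw [Finset.sum_mul, Finset.mul_sum, ← Finset.sum_add_distrib]
      refine Finset.sum_congr rfl fun w _ => ?_
      ring
    rw [h3, h1, h2]
    unfold op
    ring
  set φ : S → S → ℝ := fun x w => ‖(f x + f w) / 2 + z * ((f x - f w) / 2)‖ ^ (2 * m) with hφ
  have j1 : ∀ x, ‖op c z f x‖ ^ (2 * m) ≤ ∑ w, K x w * φ x w := by
    intro x
    rw [hop]
    have h1 : ‖∑ w, (K x w : ℂ) * ((f x + f w) / 2 + z * ((f x - f w) / 2))‖ ≤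
        ∑ w, K x w * ‖(f x + f w) / 2 + z * ((f x - f w) / 2)‖ := by
      refine (norm_sum_le _ _).trans (le_of_eq ?_)
      refine Finset.sum_congr rfl fun w _ => ?_
      rw [norm_mul, Complex.norm_real, Real.norm_of_nonneg (K0 x w)]
    refine (pow_le_pow_left₀ (norm_nonneg _) h1 _).trans ?_
    exact Real.pow_arith_mean_le_arith_mean_pow _ _ _ (fun w _ => K0 x w) (K1 x)
      (fun w _ => norm_nonneg _) _
  have j2 : ∑ x, c.π x * ‖op c z f x‖ ^ (2 * m) ≤ ∑ x, ∑ w, c.π x * K x w * φ x w := by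
    apply Finset.sum_le_sum
    intro x _
    refine (mul_le_mul_of_nonneg_left (j1 x) (c.π_nonneg x)).trans (le_of_eq ?_)
    rw [Finset.mul_sum]
    refine Finset.sum_congr rfl fun w _ => ?_
    ring
  have j3 : ∑ x, ∑ w, c.π x * K x w * φ x w = ∑ x, ∑ w, c.π x * K x w * φ w x := by
    rw [Finset.sum_comm]
    refine Finset.sum_congr rfl fun x _ => Finset.sum_congr rfl fun w _ => ?_
    rw [Krev]
  have j4 : ∀ x w, φ x w + φ w x ≤ ‖f x‖ ^ (2 * m) + ‖f w‖ ^ (2 * m) := by
    intro x w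
    have := two_point m hm ((f x + f w) / 2) ((f x - f w) / 2) z hz
    have e1 : (f x + f w) / 2 + (f x - f w) / 2 = f x := by ring
    have e2 : (f x + f w) / 2 - (f x - f w) / 2 = f w := by ring
    rw [e1, e2] at this
    refine le_trans (le_of_eq ?_) this
    simp only [hφ]
    congr 3
    ring
  have j5 : ∑ x, ∑ w, c.π x * K x w * ‖f x‖ ^ (2 * m) = ∑ x, c.π x * ‖f x‖ ^ (2 * m) := by
    refine Finset.sum_congr rfl fun x _ => ?_
    rw [← Finset.sum_mul, ← Finset.mul_sum, K1, mul_one]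
  have j6 : ∑ x, ∑ w, c.π x * K x w * ‖f w‖ ^ (2 * m) = ∑ x, c.π x * ‖f x‖ ^ (2 * m) := by
    rw [Finset.sum_comm]
    refine Finset.sum_congr rfl fun x _ => ?_
    rw [← Finset.sum_mul]
    congr 1
    have : ∀ w, c.π w * K w x = c.π x * K x w := fun w => Krev w x
    rw [Finset.sum_congr rfl fun w _ => this w, ← Finset.mul_sum, K1, mul_one]
  have j7 : ∑ x, ∑ w, c.π x * K x w * φ x w + ∑ x, ∑ w, c.π x * K x w * φ w x ≤
      ∑ x, ∑ w, c.π x * K x w * ‖f x‖ ^ (2 * m) + ∑ x, ∑ w, c.π x * K x w * ‖f w‖ ^ (2 * m) := by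
    rw [← Finset.sum_add_distrib, ← Finset.sum_add_distrib]
    apply Finset.sum_le_sum
    intro x _
    rw [← Finset.sum_add_distrib, ← Finset.sum_add_distrib]
    apply Finset.sum_le_sum
    intro w _
    rw [← mul_add, ← mul_add]
    exact mul_le_mul_of_nonneg_left (j4 x w) (mul_nonneg (c.π_nonneg x) (K0 x w))
  linarith

end contraction

section lazy
variable {S : Type} [Fintype S] [DecidableEq S] (c : RevChain S) (y : S)

/-- survival probabilities `P_x(τ(y) > s)` -/
def surv : ℕ → S → ℝ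
  | 0, x => if x = y then 0 else 1
  | s + 1, x => if x = y then 0 else ∑ w, c.P x w * surv s w

/-- the killed deformation -/
noncomputable def F : ℕ → ℂ → S → ℂ
  | 0, _, x => if x = y then 0 else 1
  | s + 1, z, x => if x = y then 0 else op c z (F s z) x

theorem F_norm (hlazy : ∀ x, 1 / 2 ≤ c.P x x) (m : ℕ) (hm : 1 ≤ m) (z : ℂ)
    (hz : (2 * m - 1) * ‖z‖ ^ 2 ≤ 1) (s : ℕ) :
    ∑ x, c.π x * ‖F c y s z x‖ ^ (2 * m) ≤ 1 := by
  induction s with
  | zero =>
    rw [← c.π_sum]
    apply Finset.sum_le_sum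
    intro x _
    have : ‖F c y 0 z x‖ ^ (2 * m) ≤ 1 := by
      unfold F
      split_ifs
      · rw [norm_zero, zero_pow (by omega)]; norm_num
      · rw [norm_one, one_pow]
    nlinarith [c.π_nonneg x]
  | succ s ih =>
    refine le_trans ?_ ih
    refine le_trans ?_ (op_contract c hlazy m hm z hz (F c y s z))
    apply Finset.sum_le_sum
    intro x _
    apply mul_le_mul_of_nonneg_left _ (c.π_nonneg x)
    conv_lhs => unfold F
    split_ifs
    · rw [norm_zero, zero_pow (by omega)]; positivity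
    · exact le_rfl

theorem F_at_zero (s : ℕ) (x : S) : F c y s 0 x = (surv c y s x : ℂ) := by
  induction s generalizing x with
  | zero => unfold F surv; split_ifs <;> simp
  | succ s ih =>
    unfold F surv op
    split_ifs
    · simp
    · simp only [ih, zero_mul, add_zero]
      push_cast
      rfl

theorem F_y (s : ℕ) (z : ℂ) : F c y s z y = 0 := by
  cases s <;> simp [F]

theorem F_deriv (s : ℕ) (x : S) : HasDerivAt (fun z => F c y (s + 1) z x)
    (((s : ℂ) + 1) * ((surv c y s x : ℂ) - surv c y (s + 1) x)) 0 := by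
  induction s generalizing x with
  | zero =>
    by_cases h : x = y
    · have e : (fun z => F c y (0 + 1) z x) = fun _ => 0 := by
        funext z; simp [F, h]
      rw [e]
      have e2 : (((0 : ℕ) : ℂ) + 1) * ((surv c y 0 x : ℂ) - surv c y (0 + 1) x) = 0 := by
        simp [surv, h]
      rw [e2]
      exact hasDerivAt_const _ _
    · have e : (fun z => F c y (0 + 1) z x) = fun z =>
          (∑ w, (c.P x w : ℂ) * (surv c y 0 w : ℂ)) + z * ((surv c y 0 x : ℂ) -
            ∑ w, (c.P x w : ℂ) * (surv c y 0 w : ℂ)) := by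
        funext z
        have h2 : ∀ w, F c y 0 z w = (surv c y 0 w : ℂ) := by
          intro w
          unfold F surv
          split_ifs <;> simp
        conv_lhs => unfold F
        rw [if_neg h]
        unfold op
        simp only [h2]
      rw [e]
      have h3 := ((hasDerivAt_id (0 : ℂ)).mul_const ((surv c y 0 x : ℂ) -
            ∑ w, (c.P x w : ℂ) * (surv c y 0 w : ℂ))).const_add
            (∑ w, (c.P x w : ℂ) * (surv c y 0 w : ℂ))
      refine h3.congr_deriv ?_
      have e4 : surv c y (0 + 1) x = ∑ w, c.P x w * surv c y 0 w := by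
        conv_lhs => unfold surv
        rw [if_neg h]
      rw [e4]
      push_cast
      ring
  | succ s ih =>
    by_cases h : x = y
    · have e : (fun z => F c y (s + 1 + 1) z x) = fun _ => 0 := by
        funext z; unfold F; rw [if_pos h]
      rw [e]
      have e2 : (((s + 1 : ℕ) : ℂ) + 1) * ((surv c y (s + 1) x : ℂ) - surv c y (s + 1 + 1) x)
          = 0 := by
        simp [surv, h]
      rw [e2]
      exact hasDerivAt_const _ _
    · have e : (fun z => F c y (s + 1 + 1) z x) = fun z =>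
          (∑ w, (c.P x w : ℂ) * F c y (s + 1) z w) + z * (F c y (s + 1) z x -
            ∑ w, (c.P x w : ℂ) * F c y (s + 1) z w) := by
        funext z
        conv_lhs => unfold F
        rw [if_neg h]
        rfl
      rw [e]
      have h1 : HasDerivAt (fun z => ∑ w, (c.P x w : ℂ) * F c y (s + 1) z w)
          (∑ w, (c.P x w : ℂ) * (((s : ℂ) + 1) *
            ((surv c y s w : ℂ) - surv c y (s + 1) w))) 0 := by
        have := HasDerivAt.fun_sum (u := (Finset.univ : Finset S))
          (A := fun w z => (c.P x w : ℂ) * F c y (s + 1) z w)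
          (A' := fun w => (c.P x w : ℂ) * (((s : ℂ) + 1) *
            ((surv c y s w : ℂ) - surv c y (s + 1) w))) (x := (0 : ℂ))
          (fun w _ => (ih w).const_mul _)
        exact this
      have h2 := h1.add ((hasDerivAt_id (0 : ℂ)).mul ((ih x).sub h1))
      refine h2.congr_deriv ?_
      simp only [Pi.sub_apply, id, F_at_zero, zero_mul, add_zero, one_mul]
      have e4 : surv c y (s + 1 + 1) x = ∑ w, c.P x w * surv c y (s + 1) w := by
        conv_lhs => unfold surv
        rw [if_neg h]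
      have e5 : surv c y (s + 1) x = ∑ w, c.P x w * surv c y s w := by
        conv_lhs => unfold surv
        rw [if_neg h]
      have e6 : ∑ w, (c.P x w : ℂ) * (((s : ℂ) + 1) *
            ((surv c y s w : ℂ) - surv c y (s + 1) w)) =
            ((s : ℂ) + 1) * ((surv c y (s + 1) x : ℂ) - surv c y (s + 1 + 1) x) := by
        rw [e4, e5]
        push_cast
        rw [← Finset.sum_sub_distrib, Finset.mul_sum]
        refine Finset.sum_congr rfl fun w _ => ?_
        ring
      rw [e6]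
      have e7 : ∑ w, (c.P x w : ℂ) * (surv c y (s + 1) w : ℂ) = (surv c y (s + 1 + 1) x : ℂ) := by
        rw [e4]; push_cast; rfl
      rw [e7]
      push_cast
      ring

theorem hit_eq_surv (s : ℕ) (x : S) :
    hitProb c.P x y (s + 1) = surv c y s x - surv c y (s + 1) x := by
  induction s generalizing x with
  | zero =>
    rw [hitProb_succ]
    unfold surv
    split_ifs with h
    · simp
    · have e1 : ∀ w, surv c y 0 w = 1 - (if w = y then 1 else 0) := by
        intro w; unfold surv; split_ifs <;> simp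
      simp only [hitProb_zero, e1, mul_sub, mul_one, Finset.sum_sub_distrib, c.P_sum]
      ring
  | succ s ih =>
    rw [hitProb_succ]
    conv_rhs => unfold surv
    split_ifs with h
    · simp
    · simp only [ih, mul_sub, Finset.sum_sub_distrib]

theorem lazy_bound (hlazy : ∀ x, 1 / 2 ≤ c.P x x) (x : S) (hx : 0 < c.π x) (t : ℕ) (ht : 1 ≤ t) :
    hitProb c.P x y t ≤ 3 / t * Real.sqrt (max 1 (Real.log (1 / c.π x))) := by
  obtain ⟨s, rfl⟩ : ∃ s, t = s + 1 := ⟨t - 1, by omega⟩
  set L := max 1 (Real.log (1 / c.π x)) with hL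
  set m := ⌈L⌉₊ with hmdef
  have hL1 : 1 ≤ L := le_max_left _ _
  have hm : 1 ≤ m := Nat.one_le_ceil_iff.2 (by linarith)
  have hmL : L ≤ m := Nat.le_ceil L
  have hmL2 : (m : ℝ) < L + 1 := Nat.ceil_lt_add_one (by linarith)
  have hm' : (1 : ℝ) ≤ m := by exact_mod_cast hm
  set r : ℝ := (Real.sqrt (2 * m - 1))⁻¹ with hr
  have hq : (0 : ℝ) < 2 * m - 1 := by linarith
  have hr0 : 0 < r := by rw [hr]; exact inv_pos.2 (Real.sqrt_pos.2 hq)
  have hbd : ∀ z ∈ Metric.sphere (0 : ℂ) r, ‖F c y (s + 1) z x‖ ≤ Real.exp (1 / 2) := by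
    intro z hz
    have hz' : ‖z‖ = r := by simpa using hz
    have h1 : (2 * (m : ℝ) - 1) * ‖z‖ ^ 2 ≤ 1 := by
      rw [hz', hr, inv_pow, Real.sq_sqrt hq.le, mul_inv_cancel₀ hq.ne']
    have h2 := F_norm c y hlazy m hm z h1 (s + 1)
    have h3 : c.π x * ‖F c y (s + 1) z x‖ ^ (2 * m) ≤ 1 := by
      refine le_trans ?_ h2
      exact Finset.single_le_sum (f := fun x => c.π x * ‖F c y (s + 1) z x‖ ^ (2 * m))
        (fun w _ => mul_nonneg (c.π_nonneg w) (by positivity)) (Finset.mem_univ x)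
    have h4 : ‖F c y (s + 1) z x‖ ^ (2 * m) ≤ 1 / c.π x := by
      rw [le_div_iff₀ hx]; linarith
    have h5 : 1 / c.π x ≤ Real.exp (1 / 2) ^ (2 * m) := by
      rw [← Real.exp_nat_mul]
      have h6 : Real.log (1 / c.π x) ≤ m := (le_max_right _ _).trans hmL
      have h7 : 1 / c.π x = Real.exp (Real.log (1 / c.π x)) := by
        rw [Real.exp_log (by positivity)]
      rw [h7]
      apply Real.exp_le_exp.2
      push_cast
      linarith
    exact le_of_pow_le_pow_left₀ (by omega) (Real.exp_pos _).le (h4.trans h5)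
  have hd := F_deriv c y s x
  have hdiff : ∀ (s : ℕ) (x : S), Differentiable ℂ (fun z => F c y s z x) := by
    intro s
    induction s with
    | zero =>
      intro x
      unfold F
      exact differentiable_const _
    | succ s ih =>
      intro x
      by_cases h : x = y
      · have e : (fun z => F c y (s + 1) z x) = fun _ => 0 := by
          funext z; unfold F; rw [if_pos h]
        rw [e]; exact differentiable_const _
      · have e : (fun z => F c y (s + 1) z x) = fun z =>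
          (∑ w, (c.P x w : ℂ) * F c y s z w) + z * (F c y s z x -
            ∑ w, (c.P x w : ℂ) * F c y s z w) := by
          funext z
          conv_lhs => unfold F
          rw [if_neg h]
          rfl
        rw [e]
        have h1 : Differentiable ℂ (fun z => ∑ w, (c.P x w : ℂ) * F c y s z w) :=
          Differentiable.fun_sum fun w _ => (ih w).const_mul _
        exact h1.add (differentiable_id.mul ((ih x).sub h1))
  have hC := Complex.norm_deriv_le_of_forall_mem_sphere_norm_le hr0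
    ((hdiff (s + 1) x).diffContOnCl) hbd
  rw [hd.deriv] at hC
  have e1 : ‖((s : ℂ) + 1) * ((surv c y s x : ℂ) - surv c y (s + 1) x)‖ =
      ((s : ℝ) + 1) * |hitProb c.P x y (s + 1)| := by
    rw [hit_eq_surv, norm_mul]
    congr 1
    · have : ((s : ℂ) + 1) = (((s : ℝ) + 1 : ℝ) : ℂ) := by push_cast; rfl
      rw [this, Complex.norm_real, Real.norm_of_nonneg (by positivity)]
    · rw [← Complex.ofReal_sub, Complex.norm_real, Real.norm_eq_abs]
  rw [e1] at hC
  have h8 : Real.exp (1 / 2) / r ≤ 3 * Real.sqrt L := by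
    rw [hr, div_inv_eq_mul]
    have h9 : Real.sqrt (2 * m - 1) ≤ Real.sqrt 3 * Real.sqrt L := by
      rw [← Real.sqrt_mul (by norm_num)]
      apply Real.sqrt_le_sqrt
      linarith
    have h10 : Real.exp (1 / 2) * Real.sqrt 3 ≤ 3 := by
      have h11 : (Real.exp (1 / 2) * Real.sqrt 3) ^ 2 ≤ 3 ^ 2 := by
        rw [mul_pow, Real.sq_sqrt (by norm_num), ← Real.exp_nat_mul]
        have := Real.exp_one_lt_d9
        norm_num at this ⊢
        linarith
      exact le_of_pow_le_pow_left₀ (by norm_num) (by norm_num) h11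
    calc Real.exp (1 / 2) * Real.sqrt (2 * m - 1)
        ≤ Real.exp (1 / 2) * (Real.sqrt 3 * Real.sqrt L) :=
          mul_le_mul_of_nonneg_left h9 (Real.exp_pos _).le
      _ = (Real.exp (1 / 2) * Real.sqrt 3) * Real.sqrt L := by ring
      _ ≤ 3 * Real.sqrt L := mul_le_mul_of_nonneg_right h10 (Real.sqrt_nonneg _)
  have hs : (0 : ℝ) < (s : ℝ) + 1 := by positivity
  have h12 : hitProb c.P x y (s + 1) ≤ |hitProb c.P x y (s + 1)| := le_abs_self _
  push_cast
  rw [div_mul_eq_mul_div, le_div_iff₀ hs]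
  nlinarith

end lazy

section counterexample

/-- conductances of the path `0, …, t`: the edge `{i, i+1}` has conductance `t ^ i` -/
noncomputable def cond (t : ℕ) (i j : Fin (t + 1)) : ℝ :=
  if (j : ℕ) = i + 1 then (t : ℝ) ^ (i : ℕ) else if (i : ℕ) = j + 1 then (t : ℝ) ^ (j : ℕ) else 0

noncomputable def rs (t : ℕ) (i : Fin (t + 1)) : ℝ := ∑ j, cond t i j

noncomputable def Z (t : ℕ) : ℝ := ∑ i, rs t i

theorem cond_symm (t : ℕ) (i j : Fin (t + 1)) : cond t i j = cond t j i := by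
  unfold cond
  split_ifs
  all_goals first
    | rfl
    | omega

theorem cond_nonneg (t : ℕ) (i j : Fin (t + 1)) : 0 ≤ cond t i j := by
  unfold cond
  split_ifs <;> positivity

theorem sum_val_le (n k : ℕ) (c : ℝ) (hc : 0 ≤ c) :
    ∑ j : Fin n, (if (j : ℕ) = k then c else 0) ≤ c := by
  by_cases h : k < n
  · rw [Finset.sum_eq_single ⟨k, h⟩]
    · simp
    · intro j _ hj
      rw [if_neg]
      intro h2
      exact hj (Fin.ext h2)
    · intro h2; exact absurd (Finset.mem_univ _) h2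
  · rw [Finset.sum_eq_zero]
    · exact hc
    · intro j _
      rw [if_neg]
      intro h2
      exact h (h2 ▸ j.2)

theorem rs_le (t : ℕ) (ht : 1 ≤ t) (i : Fin (t + 1)) :
    rs t i ≤ (t : ℝ) ^ (i : ℕ) * ((t + 1) / t) := by
  have ht' : (0 : ℝ) < t := by exact_mod_cast ht
  have h1 : ∀ j : Fin (t + 1), cond t i j ≤ (if (j : ℕ) = i + 1 then (t : ℝ) ^ (i : ℕ) else 0) +
      (if (j : ℕ) = i - 1 then (t : ℝ) ^ (i : ℕ) / t else 0) := by
    intro j
    have hp : (0 : ℝ) ≤ (t : ℝ) ^ (i : ℕ) / t := by positivity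
    unfold cond
    by_cases h1 : (j : ℕ) = i + 1
    · rw [if_pos h1, if_pos h1]
      split_ifs <;> linarith
    · rw [if_neg h1, if_neg h1]
      by_cases h2 : (i : ℕ) = j + 1
      · rw [if_pos h2, if_pos (by omega), h2, pow_succ, zero_add, mul_div_assoc,
          div_self ht'.ne', mul_one]
      · rw [if_neg h2]
        split_ifs <;> linarith
  unfold rs
  refine (Finset.sum_le_sum fun j _ => h1 j).trans ?_
  rw [Finset.sum_add_distrib]
  have h2 := sum_val_le (t + 1) (i + 1) ((t : ℝ) ^ (i : ℕ)) (by positivity)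
  have h3 := sum_val_le (t + 1) (i - 1) ((t : ℝ) ^ (i : ℕ) / t) (by positivity)
  refine (add_le_add h2 h3).trans (le_of_eq ?_)
  field_simp

theorem le_rs (t : ℕ) (i j : Fin (t + 1)) : cond t i j ≤ rs t i :=
  Finset.single_le_sum (f := fun j => cond t i j) (fun j _ => cond_nonneg t i j)
    (Finset.mem_univ j)

theorem rs_pos (t : ℕ) (ht : 1 ≤ t) (i : Fin (t + 1)) : 0 < rs t i := by
  have ht' : (0 : ℝ) < t := by exact_mod_cast ht
  by_cases h : (i : ℕ) + 1 < t + 1
  · refine lt_of_lt_of_le ?_ (le_rs t i ⟨i + 1, h⟩)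
    unfold cond
    rw [if_pos rfl]
    positivity
  · have h2 : (i : ℕ) - 1 < t + 1 := by omega
    refine lt_of_lt_of_le ?_ (le_rs t i ⟨i - 1, h2⟩)
    unfold cond
    simp only
    rw [if_neg (by omega), if_pos (by omega)]
    positivity

theorem Z_le (t : ℕ) (ht : 1 ≤ t) : Z t ≤ 2 * (t + 1) * (t : ℝ) ^ t := by
  have ht' : (1 : ℝ) ≤ t := by exact_mod_cast ht
  unfold Z
  have h : ∀ i : Fin (t + 1), rs t i ≤ 2 * (t : ℝ) ^ t := by
    intro i
    refine (rs_le t ht i).trans ?_
    have h1 : (t : ℝ) ^ (i : ℕ) ≤ (t : ℝ) ^ t := pow_le_pow_right₀ ht' (by omega)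
    have h2 : ((t : ℝ) + 1) / t ≤ 2 := by
      rw [div_le_iff₀ (by linarith)]; linarith
    calc (t : ℝ) ^ (i : ℕ) * ((t + 1) / t) ≤ (t : ℝ) ^ t * 2 :=
          mul_le_mul h1 h2 (by positivity) (by positivity)
      _ = 2 * (t : ℝ) ^ t := by ring
  refine (Finset.sum_le_sum fun i _ => h i).trans (le_of_eq ?_)
  rw [Finset.sum_const, Finset.card_univ, Fintype.card_fin, nsmul_eq_mul]
  push_cast
  ring

/-- the random walk on the weighted path -/
noncomputable def pathChain (t : ℕ) (ht : 1 ≤ t) : RevChain (Fin (t + 1)) where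
  P i j := cond t i j / rs t i
  π i := rs t i / Z t
  P_nonneg i j := div_nonneg (cond_nonneg t i j) (rs_pos t ht i).le
  P_sum i := by
    rw [← Finset.sum_div]
    exact div_self (rs_pos t ht i).ne'
  π_nonneg i := div_nonneg (rs_pos t ht i).le
    (Finset.sum_nonneg fun j _ => (rs_pos t ht j).le)
  π_sum := by
    rw [← Finset.sum_div]
    exact div_self (Finset.sum_pos (fun j _ => rs_pos t ht j) ⟨0, Finset.mem_univ _⟩).ne'
  rev i j := by
    have h1 := (rs_pos t ht i).ne'
    have h2 := (rs_pos t ht j).ne'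
    rw [div_mul_div_comm, div_mul_div_comm, cond_symm t i j]
    field_simp

theorem P_up (t : ℕ) (ht : 1 ≤ t) (i j : Fin (t + 1)) (h : (j : ℕ) = i + 1) :
    (t : ℝ) / (t + 1) ≤ (pathChain t ht).P i j := by
  show (t : ℝ) / (t + 1) ≤ cond t i j / rs t i
  have ht' : (0 : ℝ) < t := by exact_mod_cast ht
  rw [div_le_div_iff₀ (by positivity) (rs_pos t ht i)]
  have h1 : cond t i j = (t : ℝ) ^ (i : ℕ) := by unfold cond; rw [if_pos h]
  rw [h1]
  have h2 := rs_le t ht i
  calc (t : ℝ) * rs t i ≤ t * ((t : ℝ) ^ (i : ℕ) * ((t + 1) / t)) :=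
        mul_le_mul_of_nonneg_left h2 ht'.le
    _ = (t : ℝ) ^ (i : ℕ) * (t + 1) := by field_simp

theorem P_pos (t : ℕ) (ht : 1 ≤ t) (i j : Fin (t + 1)) (h : (j : ℕ) = i + 1 ∨ (i : ℕ) = j + 1) :
    0 < (pathChain t ht).P i j := by
  show 0 < cond t i j / rs t i
  have ht' : (0 : ℝ) < t := by exact_mod_cast ht
  apply div_pos _ (rs_pos t ht i)
  unfold cond
  split_ifs with h1 h2
  · positivity
  · positivity
  · omega

theorem irred (t : ℕ) (ht : 1 ≤ t) (x y : Fin (t + 1)) :
    Relation.ReflTransGen (fun a b => 0 < (pathChain t ht).P a b) x y := by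
  have h1 : ∀ (k : ℕ) (hk : k < t + 1),
      Relation.ReflTransGen (fun a b => 0 < (pathChain t ht).P a b) 0 ⟨k, hk⟩ := by
    intro k
    induction k with
    | zero => intro hk; exact Relation.ReflTransGen.refl
    | succ k ih =>
      intro hk
      exact (ih (by omega)).tail (P_pos t ht _ _ (Or.inl rfl))
  have h2 : ∀ (k : ℕ) (hk : k < t + 1),
      Relation.ReflTransGen (fun a b => 0 < (pathChain t ht).P a b) ⟨k, hk⟩ 0 := by
    intro k
    induction k with
    | zero => intro hk; exact Relation.ReflTransGen.refl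
    | succ k ih =>
      intro hk
      exact Relation.ReflTransGen.head (P_pos t ht ⟨k + 1, hk⟩ ⟨k, by omega⟩ (Or.inr rfl))
        (ih (by omega))
  exact (h2 x x.2).trans (h1 y y.2)

theorem hitProb_nonneg {S : Type} [Fintype S] [DecidableEq S] (P : S → S → ℝ)
    (hP : ∀ x y, 0 ≤ P x y) (x y : S) (t : ℕ) : 0 ≤ hitProb P x y t := by
  unfold hitProb
  apply Finset.sum_nonneg
  intro ω _
  split_ifs
  · exact Finset.prod_nonneg fun i _ => hP _ _
  · exact le_rfl

theorem hit_lower (t : ℕ) (ht : 1 ≤ t) (k : ℕ) : ∀ x : Fin (t + 1), (x : ℕ) + k = t →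
    ((t : ℝ) / (t + 1)) ^ k ≤ hitProb (pathChain t ht).P x (Fin.last t) k := by
  induction k with
  | zero =>
    intro x hx
    have : x = Fin.last t := Fin.ext (by simpa using hx)
    rw [this, hitProb_zero, if_pos rfl, pow_zero]
  | succ k ih =>
    intro x hx
    have hne : x ≠ Fin.last t := by
      intro h
      rw [h] at hx
      simp at hx
    rw [hitProb_succ, if_neg hne]
    have hlt : (x : ℕ) + 1 < t + 1 := by omega
    have h1 := ih ⟨x + 1, hlt⟩ (by simp only; omega)
    have h2 := P_up t ht x ⟨x + 1, hlt⟩ rfl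
    have h3 : (pathChain t ht).P x ⟨x + 1, hlt⟩ *
        hitProb (pathChain t ht).P ⟨x + 1, hlt⟩ (Fin.last t) k ≤
        ∑ z, (pathChain t ht).P x z * hitProb (pathChain t ht).P z (Fin.last t) k :=
      Finset.single_le_sum
        (f := fun z => (pathChain t ht).P x z * hitProb (pathChain t ht).P z (Fin.last t) k)
        (fun z _ => mul_nonneg ((pathChain t ht).P_nonneg _ _)
          (hitProb_nonneg _ (pathChain t ht).P_nonneg _ _ _)) (Finset.mem_univ _)
    refine le_trans ?_ h3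
    rw [pow_succ, mul_comm]
    exact mul_le_mul h2 h1 (by positivity) ((pathChain t ht).P_nonneg _ _)

theorem counterexample (C : ℝ) : ∃ (t : ℕ) (ht : 1 ≤ t),
    C / t * Real.sqrt (max 1 (Real.log (1 / (pathChain t ht).π 0))) <
      hitProb (pathChain t ht).P 0 (Fin.last t) t := by
  obtain ⟨N, hN⟩ := exists_nat_gt (max 1 (9 * C))
  have hN1 : (1 : ℝ) < N := (le_max_left _ _).trans_lt hN
  have hN2 : 9 * C < N := (le_max_right _ _).trans_lt hN
  have hN0 : 1 ≤ N := by
    have : (0 : ℝ) < N := by linarith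
    exact_mod_cast this
  have ht : 1 ≤ N ^ 4 := Nat.one_le_pow _ _ hN0
  refine ⟨N ^ 4, ht, ?_⟩
  set t := N ^ 4 with htdef
  have ht' : (1 : ℝ) ≤ t := by exact_mod_cast ht
  have htN : (t : ℝ) = (N : ℝ) ^ 4 := by rw [htdef]; push_cast; rfl
  -- lower bound for the left side
  have low := hit_lower t ht t 0 (by simp)
  have low2 : (1 : ℝ) / 3 ≤ ((t : ℝ) / (t + 1)) ^ t := by
    have h1 : ((1 : ℝ) / t + 1) ^ t ≤ 3 := by
      calc ((1 : ℝ) / t + 1) ^ t ≤ (Real.exp (1 / t)) ^ t :=
            pow_le_pow_left₀ (by positivity) (Real.add_one_le_exp _) _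
        _ = Real.exp 1 := by
            rw [← Real.exp_nat_mul]; congr 1; field_simp
        _ ≤ 3 := by have := Real.exp_one_lt_d9; linarith
    have h2 : (t : ℝ) / (t + 1) = ((1 : ℝ) / t + 1)⁻¹ := by
      field_simp
      ring
    rw [h2, inv_pow, one_div]
    exact inv_anti₀ (by positivity) h1
  -- upper bound for the logarithm
  have hZ : 1 / (pathChain t ht).π 0 ≤ 2 * (t + 1) * (t : ℝ) ^ t := by
    show 1 / (rs t 0 / Z t) ≤ _
    have h1 : 1 ≤ rs t 0 := by
      have h2 := le_rs t 0 ⟨1, by omega⟩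
      unfold cond at h2
      simp only [Fin.val_zero, zero_add, pow_zero, if_true] at h2
      exact h2
    have hZ0 : 0 ≤ Z t := Finset.sum_nonneg fun j _ => (rs_pos t ht j).le
    rw [one_div_div]
    refine le_trans ?_ (Z_le t ht)
    exact div_le_self hZ0 h1
  have hpos : 0 < 1 / (pathChain t ht).π 0 := by
    show 0 < 1 / (rs t 0 / Z t)
    have hZ0 : 0 < Z t := Finset.sum_pos (fun j _ => rs_pos t ht j) ⟨0, Finset.mem_univ _⟩
    have := rs_pos t ht 0
    positivity
  have hlog : Real.log (1 / (pathChain t ht).π 0) ≤ 8 * (N : ℝ) ^ 5 := by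
    calc Real.log (1 / (pathChain t ht).π 0) ≤ Real.log (2 * (t + 1) * (t : ℝ) ^ t) :=
          Real.log_le_log hpos hZ
      _ = Real.log (2 * (t + 1)) + t * Real.log t := by
          rw [Real.log_mul (by positivity) (by positivity), Real.log_pow]
      _ ≤ 4 * (N : ℝ) ^ 5 + 4 * (N : ℝ) ^ 5 := by
          apply add_le_add
          · have h1 := Real.log_le_sub_one_of_pos (show (0 : ℝ) < 2 * (t + 1) by positivity)
            have h2 : (N : ℝ) ^ 4 ≤ (N : ℝ) ^ 5 := pow_le_pow_right₀ hN1.le (by norm_num)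
            rw [htN] at h1 ht' ⊢
            linarith
          · have h1 : Real.log t = 4 * Real.log N := by
              rw [htN, Real.log_pow]; norm_num
            have h2 := Real.log_le_sub_one_of_pos (show (0 : ℝ) < N by linarith)
            rw [h1, htN]
            have h3 : (0 : ℝ) ≤ (N : ℝ) ^ 4 := by positivity
            calc (N : ℝ) ^ 4 * (4 * Real.log N) ≤ (N : ℝ) ^ 4 * (4 * N) := by
                  apply mul_le_mul_of_nonneg_left _ h3
                  linarith
              _ = 4 * (N : ℝ) ^ 5 := by ring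
      _ = 8 * (N : ℝ) ^ 5 := by ring
  have hN6 : (N : ℝ) ^ 5 ≤ (N : ℝ) ^ 6 := pow_le_pow_right₀ hN1.le (by norm_num)
  have hN60 : (1 : ℝ) ≤ (N : ℝ) ^ 6 := one_le_pow₀ hN1.le
  have hsq : Real.sqrt (max 1 (Real.log (1 / (pathChain t ht).π 0))) ≤ 3 * (N : ℝ) ^ 3 := by
    rw [Real.sqrt_le_left (by positivity)]
    apply max_le
    · nlinarith
    · nlinarith
  refine lt_of_lt_of_le ?_ (low2.trans low)
  have hN' : (0 : ℝ) < N := by linarith
  rcases le_or_gt C 0 with hC | hC
  · have : C / t * Real.sqrt (max 1 (Real.log (1 / (pathChain t ht).π 0))) ≤ 0 :=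
      mul_nonpos_of_nonpos_of_nonneg (div_nonpos_of_nonpos_of_nonneg hC (by linarith))
        (Real.sqrt_nonneg _)
    linarith
  · calc C / t * Real.sqrt (max 1 (Real.log (1 / (pathChain t ht).π 0)))
        ≤ C / t * (3 * (N : ℝ) ^ 3) := mul_le_mul_of_nonneg_left hsq (by positivity)
      _ = 3 * C / N := by rw [htN]; field_simp
      _ < 1 / 3 := by rw [div_lt_iff₀ hN']; linarith

end counterexample

/-- **The surprise bound fails as stated, and holds for lazy chains.** -/
theorem result :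
    -- Q1 is false: no constant works for all irreducible reversible chains
    (∀ C : ℝ, ∃ (n : ℕ) (c : RevChain (Fin n)) (x y : Fin n) (t : ℕ),
      (∀ a b, Relation.ReflTransGen (fun a b => 0 < c.P a b) a b) ∧ 1 ≤ t ∧
      C / t * Real.sqrt (max 1 (Real.log (1 / c.π x))) < hitProb c.P x y t) ∧
    -- the bound holds with `C = 3` for all lazy reversible chains
    (∀ (S : Type) [Fintype S] [DecidableEq S] (c : RevChain S), (∀ x, 1 / 2 ≤ c.P x x) →
      ∀ (x y : S) (t : ℕ), 0 < c.π x → 1 ≤ t →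
      hitProb c.P x y t ≤ 3 / t * Real.sqrt (max 1 (Real.log (1 / c.π x)))) := by
  refine ⟨fun C => ?_, fun S _ _ c hlazy x y t hx ht => lazy_bound c y hlazy x hx t ht⟩
  obtain ⟨t, ht, h⟩ := counterexample C
  exact ⟨t + 1, pathChain t ht, 0, Fin.last t, t, irred t ht, ht, h⟩

end Pool.Agent.Results.MP_e25d14_pr.SurpriseBound
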